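import Pool.Agent.H648.Q.Defs2

/-!
Project Q648 (helper648), task MRI: the Matomaki-Radziwill theorem for a general completely
multiplicative function of the elements of an imaginary quadratic order.
-/

set_option autoImplicit false

namespace Pool.Agent.H404.Q648

open Finset Filter
open Pool.Agent.H376R2.MR
open Pool.Agent.W78
open Pool.Agent.W78.GA
open Pool.Agent.H648.Q2

variable {t c : ℤ} {F : Qd t c → ℤ}

lemma norm_F (hF : I.Pf F) (z : Qd t c) : ‖(F z : ℂ)‖ ≤ 1 := by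
  rw [Complex.norm_intCast]
  exact_mod_cast hF.le z

theorem mri_of (hF : I.Pf F) (hD : t ^ 2 < 4 * c) (hdec : I.S_DEC F) (hmom0 : I.S_MOM0 F)
    (hmomp : I.S_MOMP F) (hmom : I.S_MOM F) (hcell : I.S_CELLE F) : I.S_MR F := by
  have hlat : GA.S_LAT t c := Pool.Agent.W45.GA.lat hD
  have hls : GA.S_LS t c := Pool.Agent.W327.GA.ls hD
  have hang1 : GA.S_ANG1 t c := Pool.Agent.W327.GA.ang1 hD
  have hang : GA.S_ANG t c := Pool.Agent.W397.GA.ang_of hang1 (Pool.Agent.W397.GA.ang2 hD)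
  have hmach : GA.S_MACH := Pool.Agent.W586.GA.mach_of Pool.Agent.W240.GA.leva
    Pool.Agent.W240.GA.levb Pool.Agent.W397.GA.s_cnt Pool.Agent.W586.GA.upart
  have hele : GA.S_ELE t c := Pool.Agent.W573.GA.ele hD
  have hsp : GA.S_SPARSE t c := Pool.Agent.W191.GA.sparse_of hD hang hlat
  classical
  obtain ⟨Ap, Bp, M, E, ρ, ϖ, hE⟩ := hele
  refine hmach (I.PE F M ϖ) (mE M) (I.GG F) ?_
  refine
    { m_nonneg := ?_, P_le := ?_, rich := hE.rich, cell_avg := hcell Ap Bp M E ρ ϖ hE, dec := ?_,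
      mom_zero := hmom0, momP := hmomp Ap Bp M E ρ ϖ hE, mom := hmom Ap Bp M E ρ ϖ hE,
      sparse := ?_ }
  · intro H v
    unfold mE
    exact sum_nonneg fun p _ => by positivity
  · intro H v k
    unfold I.PE mE
    rw [norm_neg]
    refine (norm_sum_le _ _).trans (sum_le_sum fun m _ => ?_)
    rw [norm_div, Complex.norm_natCast]
    refine div_le_div_of_nonneg_right ?_ (Nat.cast_nonneg _)
    rw [norm_mul]
    exact mul_le_one₀ (norm_F hF _) (norm_nonneg _) (norm_ps_le _ _)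
  · obtain ⟨C₁, hC₁, h1⟩ := hdec Ap Bp M E ρ ϖ hE
    obtain ⟨C₂, hC₂, h2⟩ := hls
    obtain ⟨β, hβ, C₃, hC₃, Z₀, h3⟩ := hsp
    have he : 0 < Real.exp 2 := Real.exp_pos _
    refine ⟨C₂ * (1 + Real.exp 2) * C₁ + C₃ * C₁, by positivity, β, hβ, Z₀, ?_⟩
    intro H v₀ v₁ hH hHv hW Y hY
    obtain ⟨s, a, hs, hG, ha⟩ := h1 H v₀ v₁ hH hHv hW Y hY
    have hY1 : 1 ≤ Y := by
      refine le_trans ?_ hY
      exact Real.one_le_exp (by positivity)
    have hY0 : 0 < Y := by linarith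
    have hB : 0 ≤ 1 / (∑ v ∈ Ico v₀ v₁, mE M H v) + 1 / (H : ℝ) ^ 2 := by positivity
    refine ⟨fun k => DPG s a k, hG, ?_, ?_⟩
    · intro K hK hKY
      have h4 := h2 (Real.exp 2 * Y) K s a (by
        have : 1 ≤ Real.exp 2 := Real.one_le_exp (by norm_num)
        nlinarith) hK hs
      have h5 : 0 ≤ ∑ z ∈ s, ‖a z‖ ^ 2 := sum_nonneg fun _ _ => by positivity
      calc ∑ k ∈ FK K, ‖DPG s a k‖ ^ 2
          ≤ C₂ * (K + Real.exp 2 * Y) * ∑ z ∈ s, ‖a z‖ ^ 2 := h4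
        _ ≤ C₂ * (Y + Real.exp 2 * Y) * ∑ z ∈ s, ‖a z‖ ^ 2 := by gcongr
        _ = C₂ * (1 + Real.exp 2) * (Y * ∑ z ∈ s, ‖a z‖ ^ 2) := by ring
        _ ≤ C₂ * (1 + Real.exp 2) *
            (C₁ * (1 / (∑ v ∈ Ico v₀ v₁, mE M H v) + 1 / (H : ℝ) ^ 2)) := by
            gcongr
        _ ≤ _ := by
            have : 0 ≤ C₃ * C₁ * (1 / (∑ v ∈ Ico v₀ v₁, mE M H v) + 1 / (H : ℝ) ^ 2) := by
              positivity
            linarith
    · intro hZ U hU hcard
      have h4 := h3 Y hZ U hU hcard s a (fun z hz =>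
        ⟨(one_le_nm hD).2 (prim_ne_zero (hs z hz).1), (hs z hz).2⟩)
      calc ∑ k ∈ U, ‖DPG s a k‖ ^ 2
          ≤ C₃ * Y * ∑ z ∈ s, ‖a z‖ ^ 2 := h4
        _ = C₃ * (Y * ∑ z ∈ s, ‖a z‖ ^ 2) := by ring
        _ ≤ C₃ * (C₁ * (1 / (∑ v ∈ Ico v₀ v₁, mE M H v) + 1 / (H : ℝ) ^ 2)) := by gcongr
        _ ≤ _ := by
            have : 0 ≤ C₂ * (1 + Real.exp 2) * C₁ *
                (1 / (∑ v ∈ Ico v₀ v₁, mE M H v) + 1 / (H : ℝ) ^ 2) := by positivity
            linarith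
  · obtain ⟨β, hβ, C₃, hC₃, Z₀, h3⟩ := hsp
    obtain ⟨C₄, hC₄, h4⟩ := win_mass hD hlat
    have he2 : 0 < Real.exp 2 := Real.exp_pos _
    refine ⟨C₃ * (Real.exp 2 * C₄), by positivity, β, hβ, max Z₀ (Real.exp 3), ?_⟩
    intro Z hZ U hU hcard
    have hZ0 : Z₀ ≤ Z := (le_max_left _ _).trans hZ
    have hZ3 : Real.exp 3 ≤ Z := (le_max_right _ _).trans hZ
    have hZpos : 0 < Z := (Real.exp_pos _).trans_le hZ3
    have he12 : Real.exp 1 ≤ Real.exp 2 := Real.exp_le_exp.2 (by norm_num)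
    set s := (pball t c (Real.exp 1 * Z)).filter (fun z => bg Z z ≠ 0) with hs
    have hsw : s ⊆ win t c Z := by
      intro z hz
      rw [hs, mem_filter, mem_pball hD] at hz
      have hz0 := prim_ne_zero hz.1.1
      have h5 := bg_ne hD hZpos hz0 hz.2
      rw [mem_win hD]
      refine ⟨(one_le_nm hD).2 hz0, le_trans ?_ h5.1, h5.2.trans ?_⟩
      · exact div_le_div_of_nonneg_left hZpos.le (Real.exp_pos _) he12
      · exact mul_le_mul_of_nonneg_right he12 hZpos.le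
    have hGA : ∀ k : ℤ, I.GG F Z k = DPG s (fun z => (F z : ℂ) * (bg Z z : ℂ)) k := by
      intro k
      unfold I.GG DPG
      symm
      refine Finset.sum_filter_of_ne fun z _ hne h0 => ?_
      apply hne
      simp [h0]
    have h5 := h3 Z hZ0 U hU hcard s (fun z => (F z : ℂ) * (bg Z z : ℂ)) (fun z hz => by
      have := hsw hz
      rw [mem_win hD] at this
      exact ⟨this.1, this.2.2⟩)
    have h6 : Z * ∑ z ∈ s, ‖(F z : ℂ) * (bg Z z : ℂ)‖ ^ 2 ≤ Real.exp 2 * C₄ := by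
      rw [Finset.mul_sum]
      calc ∑ z ∈ s, Z * ‖(F z : ℂ) * (bg Z z : ℂ)‖ ^ 2
          ≤ ∑ z ∈ s, Real.exp 2 * (1 / (nm z : ℝ)) := by
            refine sum_le_sum fun z hz => ?_
            have hzw := hsw hz
            rw [mem_win hD] at hzw
            have hn : (0 : ℝ) < nm z := by exact_mod_cast hzw.1
            have h7 : ‖(F z : ℂ) * (bg Z z : ℂ)‖ ≤ 1 / nm z := by
              rw [norm_mul, Complex.norm_intCast, Complex.norm_real, Real.norm_eq_abs,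
                abs_of_nonneg (bg_nonneg _ _)]
              have h8 : |(F z : ℝ)| ≤ 1 := by
                exact_mod_cast hF.le z
              calc |(F z : ℝ)| * bg Z z ≤ 1 * (1 / nm z) :=
                    mul_le_mul h8 (bg_le _ _) (bg_nonneg _ _) zero_le_one
                _ = 1 / nm z := one_mul _
            have h9 : Z ≤ Real.exp 2 * nm z := by
              have := hzw.2.1
              rw [div_le_iff₀ he2] at this
              linarith
            calc Z * ‖(F z : ℂ) * (bg Z z : ℂ)‖ ^ 2 ≤ (Real.exp 2 * nm z) * (1 / nm z) ^ 2 := by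
                  gcongr
              _ = Real.exp 2 * (1 / (nm z : ℝ)) := by field_simp
        _ = Real.exp 2 * ∑ z ∈ s, 1 / (nm z : ℝ) := by rw [Finset.mul_sum]
        _ ≤ Real.exp 2 * ∑ z ∈ win t c Z, 1 / (nm z : ℝ) := by
            gcongr
        _ ≤ Real.exp 2 * C₄ := by
            gcongr
            exact h4 Z hZ3
    calc ∑ k ∈ U, ‖I.GG F Z k‖ ^ 2
        = ∑ k ∈ U, ‖DPG s (fun z => (F z : ℂ) * (bg Z z : ℂ)) k‖ ^ 2 := by
          refine sum_congr rfl fun k _ => by rw [hGA k]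
      _ ≤ C₃ * Z * ∑ z ∈ s, ‖(F z : ℂ) * (bg Z z : ℂ)‖ ^ 2 := h5
      _ = C₃ * (Z * ∑ z ∈ s, ‖(F z : ℂ) * (bg Z z : ℂ)‖ ^ 2) := by ring
      _ ≤ C₃ * (Real.exp 2 * C₄) := by gcongr

end Pool.Agent.H404.Q648
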